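import Pool.Agent.Q54.TK.StmA

set_option autoImplicit false

/-!
Project TK: counting lemmas used for TS2 and LVT.
-/

namespace Pool.Agent.Q275.TK

open Finset Pool.Agent.Q54.TK

theorem dsum {J : Type} (A : Finset J) (P : J → J → Prop) [∀ j, DecidablePred (P j)] (c : J → ℝ)
    (D N : ℝ) (h0 : ∀ j ∈ A, 0 ≤ c j) (hD : ∀ j ∈ A, c j ≤ D) (hD0 : 0 ≤ D)
    (hN : ∀ j ∈ A, ((A.filter (P j)).card : ℝ) ≤ N) :
    ∑ j ∈ A, ∑ j' ∈ A.filter (P j), c j * c j' ≤ A.card * (D * D * N) := by
  calc ∑ j ∈ A, ∑ j' ∈ A.filter (P j), c j * c j' ≤ ∑ j ∈ A, D * D * N := by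
        refine Finset.sum_le_sum fun j hj => ?_
        calc ∑ j' ∈ A.filter (P j), c j * c j' ≤ ∑ _j' ∈ A.filter (P j), D * D := by
              refine Finset.sum_le_sum fun j' hj' => ?_
              exact mul_le_mul (hD j hj) (hD j' (Finset.mem_filter.1 hj').1)
                (h0 j' (Finset.mem_filter.1 hj').1) hD0
          _ = ((A.filter (P j)).card : ℝ) * (D * D) := by
              rw [Finset.sum_const, nsmul_eq_mul]
          _ ≤ N * (D * D) := mul_le_mul_of_nonneg_right (hN j hj) (mul_nonneg hD0 hD0)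
          _ = D * D * N := by ring
    _ = A.card * (D * D * N) := by rw [Finset.sum_const, nsmul_eq_mul]

section

variable {V : Type} [Fintype V] [DecidableEq V]

omit [Fintype V] in
theorem filter_single (F : Finset (Finset V)) (v : V) :
    F.filter (fun e => {v} ⊆ e) = F.filter (fun e => v ∈ e) := by
  refine Finset.filter_congr fun e _ => ?_
  rw [Finset.singleton_subset_iff]

theorem card_at {k s : ℕ} {F : Finset (Finset V)} (hL : S_LDS) (hy : Hyp k s F) (v : V) :
    ((F.filter (fun e => v ∈ e)).card : ℝ) = ld k s F v * qq k s := by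
  have hq := (hL V F k s hy).1
  unfold ld dg
  rw [filter_single]
  field_simp

theorem cnt_meet {k s : ℕ} {F : Finset (Finset V)} (hL : S_LDS) (hy : Hyp k s F) (v : V)
    (U : Finset V) (hv : v ∉ U) :
    ((F.filter (fun e' => v ∈ e' ∧ ∃ u ∈ U, u ∈ e')).card : ℝ) * (k * s) ≤ U.card * qq k s := by
  obtain ⟨hq, -, -, -, -, hd⟩ := hL V F k s hy
  have h1 : F.filter (fun e' => v ∈ e' ∧ ∃ u ∈ U, u ∈ e') ⊆
      U.biUnion (fun u => F.filter (fun e' => {u, v} ⊆ e')) := by
    intro e he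
    rw [Finset.mem_filter] at he
    obtain ⟨heF, hve, u, hu, hue⟩ := he
    rw [Finset.mem_biUnion]
    refine ⟨u, hu, ?_⟩
    rw [Finset.mem_filter]
    refine ⟨heF, ?_⟩
    intro w hw
    rw [Finset.mem_insert, Finset.mem_singleton] at hw
    rcases hw with rfl | rfl
    · exact hue
    · exact hve
  have h2 : (F.filter (fun e' => v ∈ e' ∧ ∃ u ∈ U, u ∈ e')).card ≤ ∑ u ∈ U, dg F {u, v} :=
    (Finset.card_le_card h1).trans Finset.card_biUnion_le
  have hks : (0 : ℝ) ≤ (k : ℝ) * s := by positivity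
  calc ((F.filter (fun e' => v ∈ e' ∧ ∃ u ∈ U, u ∈ e')).card : ℝ) * (k * s)
      ≤ ((∑ u ∈ U, dg F {u, v} : ℕ) : ℝ) * (k * s) :=
        mul_le_mul_of_nonneg_right (by exact_mod_cast h2) hks
    _ = ∑ u ∈ U, (dg F {u, v} : ℝ) * (k * s) := by
        rw [Nat.cast_sum, Finset.sum_mul]
    _ ≤ ∑ _u ∈ U, qq k s := by
        refine Finset.sum_le_sum fun u hu => hd u v (fun h => hv (h ▸ hu))
    _ = U.card * qq k s := by rw [Finset.sum_const, nsmul_eq_mul]

omit [Fintype V] in
theorem bl_card {k : ℕ} {M : Finset (Finset V)} (hk : 1 ≤ k) (hM : PD M) (hu : UF k M) (u : V) :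
    (bl M u).card ≤ k := by
  by_cases h : ∃ f ∈ M, u ∈ f
  · obtain ⟨f, hf, huf⟩ := h
    have h1 : M.filter (fun e => u ∈ e) = {f} := by
      ext e
      rw [Finset.mem_filter, Finset.mem_singleton]
      constructor
      · rintro ⟨he, hue⟩
        by_contra hne
        exact Finset.disjoint_left.1 (hM e he f hf hne) hue huf
      · rintro rfl; exact ⟨hf, huf⟩
    unfold bl
    rw [h1, Finset.singleton_biUnion, id, Finset.insert_eq_of_mem huf, hu f hf]
  · have h1 : M.filter (fun e => u ∈ e) = ∅ := by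
      rw [Finset.filter_eq_empty_iff]
      intro e he hue
      exact h ⟨e, he, hue⟩
    unfold bl
    rw [h1, Finset.biUnion_empty]
    simpa using hk

omit [Fintype V] in
theorem mem_bl (M : Finset (Finset V)) (u : V) : u ∈ bl M u := Finset.mem_insert_self _ _

end

end Pool.Agent.Q275.TK
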