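import Pool.Agent.Q275.TK.Cnt

set_option autoImplicit false

/-!
Project TK, job LVT: overload is rare.
-/

namespace Pool.Agent.Q275.TK

open Finset Pool.Agent.Q54.TK

section

variable {V : Type} [DecidableEq V]

/-- The blocks which must be selected, for the load at `v`. -/
def RB (M : Finset (Finset V)) (T : Finset V) (v : V) (e : Finset V) : Finset (Finset V) :=
  ((e.erase v).filter (fun u => u ∉ T)).image (bl M)

theorem RB_prod (M : Finset (Finset V)) (T : Finset V) (v : V) (e : Finset V) (κ : ℝ)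
    (hg : Gd M T e) :
    ∏ _i ∈ RB M T v e, (κ * 1 + (1 - κ) * 0) = ∏ u ∈ e.erase v, aT κ T u := by
  unfold RB
  rw [Finset.prod_image]
  · rw [Finset.prod_filter]
    refine Finset.prod_congr rfl fun u _ => ?_
    unfold aT
    by_cases h : u ∈ T
    · simp [h]
    · simp [h]
  · intro u hu w hw h
    rw [Finset.mem_coe, Finset.mem_filter] at hu hw
    exact hg u (Finset.mem_of_mem_erase hu.1) w (Finset.mem_of_mem_erase hw.1) hu.2 hw.2 h

theorem LV_le (F M : Finset (Finset V)) (T : Finset V) (c : Finset V → ℝ) (hc : ∀ e, 0 ≤ c e)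
    (g : Finset (Finset V)) (v : V) (A : Finset (Finset V))
    (hA : ∀ e, e ∈ A ↔ (e ∈ F ∧ v ∈ e) ∧ Gd M T e) :
    LV F M T c g v ≤ ∑ e ∈ A, c e * ∏ i ∈ RB M T v e, (if i ∈ g then (1 : ℝ) else 0) := by
  classical
  unfold LV
  have hsub : A ⊆ F.filter (fun e => v ∈ e) := by
    intro e he
    rw [Finset.mem_filter]
    exact ((hA e).1 he).1
  have h1 : ∑ e ∈ F.filter (fun e => v ∈ e), c e * IA M T g e = ∑ e ∈ A, c e * IA M T g e := by
    symm
    refine Finset.sum_subset hsub fun e he hne => ?_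
    rw [Finset.mem_filter] at he
    have : ¬ Gd M T e := fun h => hne ((hA e).2 ⟨he, h⟩)
    unfold IA
    rw [if_neg (fun h => this h.1), mul_zero]
  rw [h1]
  refine Finset.sum_le_sum fun e he => mul_le_mul_of_nonneg_left ?_ (hc e)
  unfold IA
  split_ifs with h
  · refine le_of_eq (Finset.prod_eq_one fun i hi => ?_).symm
    unfold RB at hi
    rw [Finset.mem_image] at hi
    obtain ⟨u, hu, rfl⟩ := hi
    rw [Finset.mem_filter] at hu
    rcases h.2 u (Finset.mem_of_mem_erase hu.1) with h2 | h2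
    · exact absurd h2 hu.2
    · rw [if_pos h2]
  · exact Finset.prod_nonneg fun i _ => by split_ifs <;> norm_num

end

open Classical in
/-- TK-LVT. -/
theorem lvt : S_EBL → S_TL → S_LDS → S_LVT := by
  intro hEL hTL hLD V _ _ F M T k s C c κ η v hS hκ0 hκ1 hη hell
  have hy := hS.hyp
  obtain ⟨hadd, hsub, hmul, hmono, hconst, hsum⟩ :=
    hEL (Finset V) (fun _ => κ) (fun _ => ⟨hκ0, hκ1⟩)
  obtain ⟨hq, hksq, hld, -, -, -⟩ := hLD V F k s hy
  have hs0 : (0 : ℝ) < s := by exact_mod_cast hy.s1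
  have hk1 : 1 ≤ k := by have := hy.k2; omega
  have hk0 : (0 : ℝ) < k := by exact_mod_cast hk1
  have hD : ∀ e, c e ≤ C / qq k s := fun e => by rw [le_div_iff₀ hq]; exact hS.cC e
  set A : Finset (Finset V) := (F.filter (fun e => v ∈ e)).filter (fun e => Gd M T e) with hA
  have hAm : ∀ e, e ∈ A ↔ (e ∈ F ∧ v ∈ e) ∧ Gd M T e := fun e => by
    rw [hA, Finset.mem_filter, Finset.mem_filter]
  have hUM : UF k M := fun e he => hy.uf e (hS.sub he)
  have haT : ∀ u, 0 ≤ aT κ T u := fun u => by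
    unfold aT; split_ifs
    · exact zero_le_one
    · exact hκ0
  -- the mean
  have hmean : ∑ e ∈ A, c e * ∏ _i ∈ RB M T v e, (κ * 1 + (1 - κ) * 0) ≤ 1 + η := by
    refine le_trans ?_ hell
    unfold ell
    rw [Finset.sum_congr rfl (fun e he => by rw [RB_prod M T v e κ ((hAm e).1 he).2])]
    refine Finset.sum_le_sum_of_subset_of_nonneg (Finset.filter_subset _ _) fun e _ _ => ?_
    exact mul_nonneg (hS.c0 e) (Finset.prod_nonneg fun u _ => haT u)
  have key := hTL (Finset V) (fun _ => κ) (fun _ => 1) (fun _ => 0) (Finset V) A (RB M T v)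
    c (1 + η) η (fun _ => ⟨hκ0, hκ1⟩) (fun _ => ⟨zero_le_one, le_rfl⟩)
    (fun _ => ⟨le_rfl, zero_le_one⟩) (fun e _ => hS.c0 e) hη hmean
  have hcard : ∀ e ∈ A, ((A.filter (fun e' => ¬ Disjoint (RB M T v e) (RB M T v e'))).card : ℝ) ≤
      k * qq k s / s := by
    intro e he
    have he' := (hAm e).1 he
    set U : Finset V := ((e.erase v).biUnion (bl M)).erase v with hU
    have h1 : A.filter (fun e' => ¬ Disjoint (RB M T v e) (RB M T v e')) ⊆
        F.filter (fun e' => v ∈ e' ∧ ∃ u ∈ U, u ∈ e') := by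
      intro e' h'
      rw [Finset.mem_filter] at h'
      have h'' := (hAm e').1 h'.1
      rw [Finset.mem_filter]
      refine ⟨h''.1.1, h''.1.2, ?_⟩
      obtain ⟨i, hi1, hi2⟩ := Finset.not_disjoint_iff.1 h'.2
      unfold RB at hi1 hi2
      rw [Finset.mem_image] at hi1 hi2
      obtain ⟨u, hu, hui⟩ := hi1
      obtain ⟨u', hu', hui'⟩ := hi2
      rw [Finset.mem_filter] at hu hu'
      refine ⟨u', ?_, Finset.mem_of_mem_erase hu'.1⟩
      rw [hU, Finset.mem_erase]
      refine ⟨Finset.ne_of_mem_erase hu'.1, ?_⟩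
      rw [Finset.mem_biUnion]
      refine ⟨u, hu.1, ?_⟩
      rw [hui, ← hui']
      exact mem_bl M u'
    have h2 := cnt_meet hLD hy v U (Finset.notMem_erase _ _)
    have h3 : (U.card : ℝ) ≤ k * k := by
      have ha : U.card ≤ ((e.erase v).biUnion (bl M)).card := Finset.card_erase_le
      have hb : ((e.erase v).biUnion (bl M)).card ≤ ∑ u ∈ e.erase v, (bl M u).card :=
        Finset.card_biUnion_le
      have hc : ∑ u ∈ e.erase v, (bl M u).card ≤ ∑ _u ∈ e.erase v, k :=
        Finset.sum_le_sum fun u _ => bl_card hk1 hS.pd hUM u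
      rw [Finset.sum_const, smul_eq_mul] at hc
      have hd : (e.erase v).card ≤ k := by
        have := Finset.card_erase_le (s := e) (a := v)
        rwa [hy.uf e he'.1.1] at this
      have : U.card ≤ k * k := (ha.trans hb).trans (hc.trans (Nat.mul_le_mul_right k hd))
      exact_mod_cast this
    have h4 : ((A.filter (fun e' => ¬ Disjoint (RB M T v e) (RB M T v e'))).card : ℝ) ≤
        ((F.filter (fun e' => v ∈ e' ∧ ∃ u ∈ U, u ∈ e')).card : ℝ) := by
      exact_mod_cast Finset.card_le_card h1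
    refine h4.trans ?_
    rw [le_div_iff₀ hs0]
    have h5 : ((F.filter (fun e' => v ∈ e' ∧ ∃ u ∈ U, u ∈ e')).card : ℝ) * (k * s) ≤
        k * k * qq k s := h2.trans (mul_le_mul_of_nonneg_right h3 hq.le)
    have h6 : k * (((F.filter (fun e' => v ∈ e' ∧ ∃ u ∈ U, u ∈ e')).card : ℝ) * s) ≤
        k * (k * qq k s) := by
      calc k * (((F.filter (fun e' => v ∈ e' ∧ ∃ u ∈ U, u ∈ e')).card : ℝ) * s)
          = ((F.filter (fun e' => v ∈ e' ∧ ∃ u ∈ U, u ∈ e')).card : ℝ) * (k * s) := by ring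
        _ ≤ k * k * qq k s := h5
        _ = k * (k * qq k s) := by ring
    exact le_of_mul_le_mul_left h6 hk0
  have hds := dsum A (fun e e' => ¬ Disjoint (RB M T v e) (RB M T v e')) c
    (C / qq k s) (k * qq k s / s) (fun e _ => hS.c0 e) (fun e _ => hD e)
    (div_nonneg (le_trans zero_le_one hS.C1) hq.le) hcard
  have hAc : (A.card : ℝ) ≤ ld k s F v * qq k s := by
    rw [← card_at hLD hy v]
    exact_mod_cast Finset.card_le_card (Finset.filter_subset _ _)
  have hpos : 0 ≤ C / qq k s * (C / qq k s) * (k * qq k s / s) := by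
    have hC0 : 0 ≤ C / qq k s := div_nonneg (le_trans zero_le_one hS.C1) hq.le
    exact mul_nonneg (mul_nonneg hC0 hC0) (div_nonneg (mul_nonneg hk0.le hq.le) hs0.le)
  have h8 : ld k s F v * qq k s * (C / qq k s * (C / qq k s) * (k * qq k s / s)) =
      C ^ 2 * k * ld k s F v / s := by
    field_simp
  have hds' := hds.trans ((mul_le_mul_of_nonneg_right hAc hpos).trans (le_of_eq h8))
  have hpt : ∀ g : Finset (Finset V),
      (if 1 + 2 * η < LV F M T c g v then (1 : ℝ) else 0) ≤
      (if 1 + η + η < ∑ e ∈ A, c e * ∏ i ∈ RB M T v e, (if i ∈ g then (1 : ℝ) else 0)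
        then 1 else 0) := by
    intro g
    have h9 := LV_le F M T c hS.c0 g v A hAm
    by_cases h10 : 1 + 2 * η < LV F M T c g v
    · rw [if_pos h10, if_pos (by linarith)]
    · rw [if_neg h10]; split_ifs <;> norm_num
  have hm := hmono _ _ hpt
  refine (mul_le_mul_of_nonneg_right hm (sq_nonneg η)).trans ?_
  refine le_trans (le_of_eq ?_) (key.trans (le_trans (le_of_eq ?_) hds'))
  · rfl
  · refine Finset.sum_congr rfl fun e _ => ?_
    refine Finset.sum_congr ?_ fun _ _ => rfl
    ext e'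
    simp only [Finset.mem_filter]

end Pool.Agent.Q275.TK
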