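import Pool.Agent.Q54.TK.StmA

set_option autoImplicit false

/-!
Project TK, job MAIN: the main inequality.
-/

namespace Pool.Agent.Q275.TK

open Finset Pool.Agent.Q54.TK

/-- The final algebra. -/
theorem main_alg {k s l ε z γ Λ Tt K X : ℝ} (hk : 0 < k) (hl : 0 < l) (hs : 0 < s)
    (hΛ : Λ ≤ k ^ 2 * s) (hγ1 : γ ≤ 1) (hγ : (1 - γ) * k ^ 2 ≤ ε / 2)
    (hK : X ≤ K) (hK2 : K ≤ ε / 2 * s)
    (h : γ * (Λ / (k * (1 + l))) - (1 - l / (1 + l)) / k * Tt ≤
      s + X / (k * (1 + l)) - (1 - l / (1 + l)) * (s - z * s / k)) :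
    Λ - Tt ≤ (k * l + ε + z) * s := by
  have hl0 : 0 < 1 + l := by linarith
  have e1 : 1 - l / (1 + l) = 1 / (1 + l) := by field_simp; ring
  rw [e1] at h
  have hkl : 0 < k * (1 + l) := mul_pos hk hl0
  have h1 := mul_le_mul_of_nonneg_left h hkl.le
  have e2 : k * (1 + l) * (γ * (Λ / (k * (1 + l))) - 1 / (1 + l) / k * Tt) = γ * Λ - Tt := by
    field_simp
  have e3 : k * (1 + l) * (s + X / (k * (1 + l)) - 1 / (1 + l) * (s - z * s / k)) =
      k * (1 + l) * s + X - (k * s - z * s) := by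
    field_simp
  rw [e2, e3] at h1
  have h2 : (1 - γ) * Λ ≤ ε / 2 * s := by
    calc (1 - γ) * Λ ≤ (1 - γ) * (k ^ 2 * s) := mul_le_mul_of_nonneg_left hΛ (by linarith)
      _ = (1 - γ) * k ^ 2 * s := by ring
      _ ≤ ε / 2 * s := mul_le_mul_of_nonneg_right hγ hs.le
  nlinarith

/-- TK-MAIN. -/
theorem main : S_EBL → S_NIB → S_KEEP → S_STB → S_EKP → S_TS1 → S_TS2 → S_TS3 → S_CCB → S_LDS →
    S_MAIN := by
  intro hEL hNB hKP hST hEK hT1 hT2 hT3 hCC hLD k hk2 l ε hl hl1 hε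
  have hk0 : (0 : ℝ) < k := by exact_mod_cast (by omega : 0 < k)
  have hl0 : (0 : ℝ) < 1 + l := by linarith
  set τ : ℝ := min (1 / 2) (ε / (6 * (k : ℝ) ^ 2)) with hτ
  have hτ0 : 0 < τ := lt_min (by norm_num) (by positivity)
  have hτ1 : τ ≤ 1 / 2 := min_le_left _ _
  have hτ2 : τ ≤ ε / (6 * (k : ℝ) ^ 2) := min_le_right _ _
  set C : ℝ := ((1 + l) / l) ^ k with hC
  have hC1 : 1 ≤ C := by
    rw [hC]
    refine one_le_pow₀ ?_
    rw [le_div_iff₀ hl]; linarith
  set γ : ℝ := (1 - τ) / (1 + 2 * τ) with hγ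
  have hτp : (0 : ℝ) < 1 + 2 * τ := by linarith
  have hγ0 : 0 ≤ γ := div_nonneg (by linarith) hτp.le
  have hγ1 : γ ≤ 1 := by rw [hγ, div_le_one hτp]; linarith
  have hγ2 : 1 - γ ≤ 3 * τ := by
    have : 1 - 3 * τ ≤ γ := by
      rw [hγ, le_div_iff₀ hτp]; nlinarith
    linarith
  have hγ3 : (1 - γ) * (k : ℝ) ^ 2 ≤ ε / 2 := by
    have h1 : (1 - γ) * (k : ℝ) ^ 2 ≤ 3 * (ε / (6 * (k : ℝ) ^ 2)) * (k : ℝ) ^ 2 :=
      mul_le_mul_of_nonneg_right (by linarith) (by positivity)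
    have h2 : 3 * (ε / (6 * (k : ℝ) ^ 2)) * (k : ℝ) ^ 2 = ε / 2 := by field_simp; norm_num
    linarith
  obtain ⟨s1, hs1⟩ := hNB k τ τ C hk2 hτ0 hτ0 hC1
  set K1 : ℝ := C * k + C ^ 3 * k ^ 3 / τ ^ 2 with hK1
  set K2 : ℝ := C ^ 3 * (k : ℝ) ^ 2 / τ ^ 2 with hK2
  have hC0 : 0 ≤ C := by linarith
  have hK1' : 0 ≤ K1 := by positivity
  have hK2' : 0 ≤ K2 := by positivity
  set K : ℝ := k * (1 + l) * (K1 + K2) with hK
  have hKn : 0 ≤ K := by positivity
  obtain ⟨s2, hs2⟩ := exists_nat_ge (K / (ε / 2))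
  refine ⟨max s1 s2, ?_⟩
  intro s hs V _ _ F hy z hz
  have hs0 : (0 : ℝ) < s := by exact_mod_cast hy.s1
  obtain ⟨hc0, hcC, -, htt, haa, hmix⟩ := hCC V F k s l hy hl hl1
  obtain ⟨hq, hksq, hld, hsum1, hsum2, -⟩ := hLD V F k s hy
  set κ : ℝ := l / (1 + l) with hκ
  have hκ0 : 0 ≤ κ := by positivity
  have hκ1 : κ ≤ 1 := by rw [hκ, div_le_one hl0]; linarith
  set c : Finset V → ℝ := cc k s F l with hc
  set p : V → ℝ := tt k s F l with hp
  obtain ⟨hadd, hsub, hmul, hmono, hconst, hsum⟩ := hEL V p htt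
  set Φ : Finset V → ℝ := fun T => ∑ e ∈ F, c e * ∏ u ∈ e, aT κ T u with hΦ
  set O : Finset V → ℝ := fun T => ∑ v, (if 1 + τ < ell F c κ T v then C * ld k s F v else 0) with hO
  -- the inequality for every T
  have hT : ∀ T : Finset V, γ * Φ T - γ * O T - (1 - κ) / k * (T.card : ℝ) ≤
      s + γ * K1 - (1 - κ) * (s - z * s / k) := by
    intro T
    obtain ⟨M, hMF, hMP, hMT, hMc⟩ := hz T
    have hS : Sel k s F M T C c := ⟨hy, hMF, hMP, hMT, hc0, hcC, hC1⟩
    obtain ⟨gadd, gsub, gmul, gmono, gconst, gsum⟩ :=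
      hEL (Finset V) (fun _ => κ) (fun _ => ⟨hκ0, hκ1⟩)
    have h1 : ∀ g : Finset (Finset V),
        γ * WT F M T c τ g + ((M.filter (fun e => e ∉ g)).card : ℝ) ≤ s := by
      intro g
      obtain ⟨M', hM'F, hM'P, hM'A, hM'c⟩ := hs1 s (le_trans (le_max_left _ _) hs) V F M T c g hS
      have h2 := hKP V F M M' T k s C c g hS hM'F hM'P hM'A
      have h3 : (M'.card : ℝ) + ((M.filter (fun e => e ∉ g)).card : ℝ) ≤ s := by exact_mod_cast h2
      rw [← hγ] at hM'c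
      linarith
    have h4 := gmono _ _ h1
    rw [gconst, gadd, gmul, hEK V M κ hκ0 hκ1] at h4
    have h5 := hST V F M T k s C c κ τ hS hκ0 hκ1 hτ0
    have h6 : Φ T - K1 - O T ≤ EB (fun _ : Finset V => κ) (fun g => WT F M T c τ g) := by
      refine le_trans (le_of_eq ?_) h5
      rw [hK1, hΦ, hO]; ring
    have h7 := mul_le_mul_of_nonneg_left h6 hγ0
    have h8 : (s : ℝ) - (T.card : ℝ) / k - z * s / k ≤ M.card := by
      refine le_of_mul_le_mul_left ?_ hk0
      have e4 : (k : ℝ) * ((s : ℝ) - (T.card : ℝ) / k - z * s / k) = k * s - T.card - z * s := by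
        field_simp
      rw [e4]
      linarith
    have h9 := mul_le_mul_of_nonneg_left h8 (by linarith : (0 : ℝ) ≤ 1 - κ)
    have h10 : (1 - κ) * ((s : ℝ) - (T.card : ℝ) / k - z * s / k) =
        (1 - κ) * (s - z * s / k) - (1 - κ) / k * (T.card : ℝ) := by ring
    rw [h10] at h9
    nlinarith
  have h1 := hmono _ _ hT
  rw [hconst, hsub, hsub, hmul, hmul, hmul] at h1
  rw [hT3 V p htt] at h1
  have hΦE : EB p Φ = F.card / (qq k s * (1 + l)) := hT1 V F k s l hy hl hl1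
  have hOE : EB p O ≤ K2 := by
    have e1 : O = fun T => ∑ v ∈ (Finset.univ : Finset V), (C * ld k s F v) *
        (if 1 + τ < ell F c κ T v then (1 : ℝ) else 0) := by
      funext T
      rw [hO]
      refine Finset.sum_congr rfl fun v _ => ?_
      split_ifs <;> ring
    rw [e1, hsum]
    have h2 : ∀ v ∈ (Finset.univ : Finset V), EB p (fun T => (C * ld k s F v) *
        (if 1 + τ < ell F c κ T v then (1 : ℝ) else 0)) ≤ C ^ 3 / (s * τ ^ 2) * ld k s F v := by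
      intro v _
      rw [hmul]
      have h3 := hT2 V F k s l τ v hy hl hl1 hτ0
      have h4 : EB p (fun T => if 1 + τ < ell F c κ T v then (1 : ℝ) else 0) ≤
          C ^ 2 * ld k s F v / s / τ ^ 2 := by
        rw [le_div_iff₀ (by positivity)]; exact h3
      have h5 : 0 ≤ C * ld k s F v := mul_nonneg hC0 (hld v).1
      have h6 : ld k s F v * ld k s F v ≤ ld k s F v := by
        have := mul_le_mul_of_nonneg_left (hld v).2 (hld v).1
        linarith
      calc C * ld k s F v * EB p (fun T => if 1 + τ < ell F c κ T v then (1 : ℝ) else 0)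
          ≤ C * ld k s F v * (C ^ 2 * ld k s F v / s / τ ^ 2) :=
            mul_le_mul_of_nonneg_left h4 h5
        _ = C ^ 3 / (s * τ ^ 2) * (ld k s F v * ld k s F v) := by field_simp
        _ ≤ C ^ 3 / (s * τ ^ 2) * ld k s F v :=
            mul_le_mul_of_nonneg_left h6 (by positivity)
    refine (Finset.sum_le_sum h2).trans ?_
    rw [← Finset.mul_sum]
    calc C ^ 3 / (s * τ ^ 2) * ∑ v, ld k s F v ≤ C ^ 3 / (s * τ ^ 2) * (k ^ 2 * s) :=
          mul_le_mul_of_nonneg_left hsum2 (by positivity)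
      _ = K2 := by rw [hK2]; field_simp
  -- final algebra
  set Λ : ℝ := ∑ v, ld k s F v with hΛ
  have hmin : ∑ v, min (ld k s F v) l = Λ - ∑ v, p v := by
    rw [hΛ, ← Finset.sum_sub_distrib]
    refine Finset.sum_congr rfl fun v _ => ?_
    rw [hp]
    unfold tt
    rcases le_total (ld k s F v) l with h | h
    · rw [min_eq_left h, max_eq_right (by linarith)]; ring
    · rw [min_eq_right h, max_eq_left (by linarith)]; ring
  rw [hmin]
  have hFc : (F.card : ℝ) / (qq k s * (1 + l)) = Λ / (k * (1 + l)) := by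
    rw [hsum1]; field_simp
  rw [hΦE, hFc] at h1
  refine main_alg (K := K) (X := k * (1 + l) * (γ * K1 + γ * K2)) hk0 hl hs0 hsum2 hγ1 hγ3 ?_ ?_ ?_
  · rw [hK]
    refine mul_le_mul_of_nonneg_left ?_ (by positivity)
    nlinarith
  · have h2 : (s2 : ℝ) ≤ s := by exact_mod_cast le_trans (le_max_right _ _) hs
    have h3 : K / (ε / 2) ≤ s := hs2.trans h2
    rw [div_le_iff₀ (by linarith)] at h3
    linarith
  · have h2 : k * (1 + l) * (γ * K1 + γ * K2) / (k * (1 + l)) = γ * K1 + γ * K2 := by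
      field_simp
    rw [h2]
    have h3 := mul_le_mul_of_nonneg_left hOE hγ0
    linarith

end Pool.Agent.Q275.TK
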