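import Pool.Agent.Q54.TK.StmA

set_option autoImplicit false

/-!
Project TK, job TL: tail bound by the second moment.
-/

namespace Pool.Agent.Q275.TK

open Finset Pool.Agent.Q54.TK

section aux

variable {α : Type} [Fintype α] [DecidableEq α]

/-- The product functional. -/
noncomputable def fR (a b : α → ℝ) (R S : Finset α) : ℝ := ∏ i ∈ R, if i ∈ S then a i else b i

theorem fR_nonneg {a b : α → ℝ} (ha : ∀ i, 0 ≤ a i ∧ a i ≤ 1) (hb : ∀ i, 0 ≤ b i ∧ b i ≤ 1)
    (R S : Finset α) : 0 ≤ fR a b R S := by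
  refine Finset.prod_nonneg fun i _ => ?_
  split_ifs
  · exact (ha i).1
  · exact (hb i).1

theorem fR_le_one {a b : α → ℝ} (ha : ∀ i, 0 ≤ a i ∧ a i ≤ 1) (hb : ∀ i, 0 ≤ b i ∧ b i ≤ 1)
    (R S : Finset α) : fR a b R S ≤ 1 := by
  refine Finset.prod_le_one (fun i _ => ?_) (fun i _ => ?_)
  · split_ifs
    · exact (ha i).1
    · exact (hb i).1
  · split_ifs
    · exact (ha i).2
    · exact (hb i).2

theorem fR_union {a b : α → ℝ} {R R' : Finset α} (h : Disjoint R R') (S : Finset α) :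
    fR a b R S * fR a b R' S = fR a b (R ∪ R') S := by
  unfold fR
  rw [Finset.prod_union h]

/-- The mean of the product functional. -/
noncomputable def mR (p a b : α → ℝ) (R : Finset α) : ℝ := ∏ i ∈ R, (p i * a i + (1 - p i) * b i)

theorem EB_fR (hP : S_EBP) (p a b : α → ℝ) (R : Finset α) :
    EB p (fun S => fR a b R S) = mR p a b R := hP α p a b R

/-- Covariances. -/
theorem cov_eq (hL : S_EBL) (hP : S_EBP) {p a b : α → ℝ} (hp : ∀ i, 0 ≤ p i ∧ p i ≤ 1)
    (R R' : Finset α) :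
    EB p (fun S => (fR a b R S - mR p a b R) * (fR a b R' S - mR p a b R')) =
      EB p (fun S => fR a b R S * fR a b R' S) - mR p a b R * mR p a b R' := by
  obtain ⟨hadd, hsub, hmul, hmono, hconst, hsum⟩ := hL α p hp
  have e : (fun S : Finset α => (fR a b R S - mR p a b R) * (fR a b R' S - mR p a b R')) =
      fun S => (fR a b R S * fR a b R' S - mR p a b R' * fR a b R S) -
        (mR p a b R * fR a b R' S - mR p a b R * mR p a b R') := by
    funext S; ring
  rw [e, hsub, hsub, hsub, hmul, hmul, hconst, EB_fR hP, EB_fR hP]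
  ring

theorem cov_le (hL : S_EBL) (hP : S_EBP) {p a b : α → ℝ} (hp : ∀ i, 0 ≤ p i ∧ p i ≤ 1)
    (ha : ∀ i, 0 ≤ a i ∧ a i ≤ 1) (hb : ∀ i, 0 ≤ b i ∧ b i ≤ 1) (R R' : Finset α) :
    EB p (fun S => (fR a b R S - mR p a b R) * (fR a b R' S - mR p a b R')) ≤
      if ¬ Disjoint R R' then 1 else 0 := by
  obtain ⟨hadd, hsub, hmul, hmono, hconst, hsum⟩ := hL α p hp
  rw [cov_eq hL hP hp]
  have hm : ∀ Q : Finset α, 0 ≤ mR p a b Q := fun Q => by
    rw [← EB_fR hP]
    have := hmono (fun _ => 0) (fun S => fR a b Q S) (fun S => fR_nonneg ha hb Q S)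
    rwa [hconst] at this
  by_cases h : Disjoint R R'
  · rw [if_neg (not_not.2 h)]
    have e : (fun S : Finset α => fR a b R S * fR a b R' S) = fun S => fR a b (R ∪ R') S := by
      funext S; exact fR_union h S
    rw [e, EB_fR hP]
    have : mR p a b (R ∪ R') = mR p a b R * mR p a b R' := by
      unfold mR; exact Finset.prod_union h
    rw [this]; simp
  · rw [if_pos h]
    have h1 := hmono (fun S => fR a b R S * fR a b R' S) (fun _ => 1) (fun S =>
      mul_le_one₀ (fR_le_one ha hb R S) (fR_nonneg ha hb R' S) (fR_le_one ha hb R' S))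
    rw [hconst] at h1
    nlinarith [mul_nonneg (hm R) (hm R')]

end aux

open Classical in
/-- TK-TL. -/
theorem tl : S_EBL → S_EBP → S_TL := by
  intro hL hP α _ _ p a b J A R c m δ hp ha hb hc hδ hm
  obtain ⟨hadd, hsub, hmul, hmono, hconst, hsum⟩ := hL α p hp
  set μ : ℝ := ∑ j ∈ A, c j * mR p a b (R j) with hμ
  have hμm : μ ≤ m := hm
  -- pointwise bound
  have h1 : ∀ S : Finset α,
      (if m + δ < ∑ j ∈ A, c j * ∏ i ∈ R j, (if i ∈ S then a i else b i) then (1 : ℝ) else 0) *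
        δ ^ 2 ≤ ∑ j ∈ A, ∑ j' ∈ A, c j * c j' *
          ((fR a b (R j) S - mR p a b (R j)) * (fR a b (R j') S - mR p a b (R j'))) := by
    intro S
    have e : ∑ j ∈ A, ∑ j' ∈ A, c j * c j' *
          ((fR a b (R j) S - mR p a b (R j)) * (fR a b (R j') S - mR p a b (R j'))) =
        (∑ j ∈ A, c j * fR a b (R j) S - μ) ^ 2 := by
      rw [hμ, ← Finset.sum_sub_distrib, sq, Finset.sum_mul_sum]
      refine Finset.sum_congr rfl fun j _ => Finset.sum_congr rfl fun j' _ => ?_
      ring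
    rw [e]
    change (if m + δ < ∑ j ∈ A, c j * fR a b (R j) S then (1 : ℝ) else 0) * δ ^ 2 ≤ _
    split_ifs with h
    · rw [one_mul]
      have h2 : δ ≤ ∑ j ∈ A, c j * fR a b (R j) S - μ := by linarith
      exact pow_le_pow_left₀ hδ.le h2 2
    · rw [zero_mul]; exact sq_nonneg _
  have h2 := hmono _ _ h1
  rw [hsum] at h2
  have h3 : ∀ j ∈ A, EB p (fun S => ∑ j' ∈ A, c j * c j' *
      ((fR a b (R j) S - mR p a b (R j)) * (fR a b (R j') S - mR p a b (R j')))) ≤
      ∑ j' ∈ A.filter (fun j' => ¬ Disjoint (R j) (R j')), c j * c j' := by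
    intro j hj
    rw [hsum, Finset.sum_filter]
    refine Finset.sum_le_sum fun j' hj' => ?_
    rw [hmul]
    have h4 := cov_le hL hP hp ha hb (R j) (R j')
    have h5 : 0 ≤ c j * c j' := mul_nonneg (hc j hj) (hc j' hj')
    calc c j * c j' * EB p (fun S => (fR a b (R j) S - mR p a b (R j)) *
          (fR a b (R j') S - mR p a b (R j')))
        ≤ c j * c j' * (if ¬ Disjoint (R j) (R j') then 1 else 0) :=
          mul_le_mul_of_nonneg_left h4 h5
      _ = if ¬ Disjoint (R j) (R j') then c j * c j' else 0 := by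
          split_ifs <;> simp
  refine le_trans (le_of_eq ?_) (h2.trans (Finset.sum_le_sum h3))
  have e : (fun S : Finset α =>
      (if m + δ < ∑ j ∈ A, c j * ∏ i ∈ R j, (if i ∈ S then a i else b i) then (1 : ℝ) else 0) *
        δ ^ 2) = fun S => δ ^ 2 *
      (if m + δ < ∑ j ∈ A, c j * ∏ i ∈ R j, (if i ∈ S then a i else b i) then (1 : ℝ) else 0) := by
    funext S; ring
  rw [e, hmul, mul_comm]

end Pool.Agent.Q275.TK
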