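import Pool.Agent.Q275.TK.Cnt

set_option autoImplicit false

/-!
Project TK, job TS2: second moment over T.
-/

namespace Pool.Agent.Q275.TK

open Finset Pool.Agent.Q54.TK

open Classical in
/-- TK-TS2. -/
theorem ts2 : S_EBL → S_TL → S_CCB → S_LDS → S_TS2 := by
  intro hEL hTL hCC hLD V _ _ F k s l η v hy hl hl1 hη
  obtain ⟨hc0, hcC, hC1, htt, haa, hmix⟩ := hCC V F k s l hy hl hl1
  obtain ⟨hq, hksq, hld, -, -, -⟩ := hLD V F k s hy
  set κ : ℝ := l / (1 + l) with hκ
  have hl0 : (0 : ℝ) < 1 + l := by linarith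
  have hκ0 : 0 ≤ κ := by positivity
  have hκ1 : κ ≤ 1 := by rw [hκ, div_le_one hl0]; linarith
  set C : ℝ := ((1 + l) / l) ^ k with hC
  have hs0 : (0 : ℝ) < s := by exact_mod_cast hy.s1
  have hk0 : (0 : ℝ) < k := by exact_mod_cast (by have := hy.k2; omega : 0 < k)
  have hD : ∀ e, cc k s F l e ≤ C / qq k s := fun e => by rw [le_div_iff₀ hq]; exact hcC e
  set A : Finset (Finset V) := F.filter (fun e => v ∈ e) with hA
  -- the mean
  have hmean : ∑ e ∈ A, cc k s F l e * ∏ u ∈ e.erase v, (tt k s F l u * 1 + (1 - tt k s F l u) * κ)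
      ≤ 1 := by
    have h1 : ∀ e ∈ A, cc k s F l e * ∏ u ∈ e.erase v,
        (tt k s F l u * 1 + (1 - tt k s F l u) * κ) = 1 / (qq k s * (1 + l) * aa k s F l v) := by
      intro e he
      rw [hA, Finset.mem_filter] at he
      have h2 : ∏ u ∈ e.erase v, (tt k s F l u * 1 + (1 - tt k s F l u) * κ) =
          ∏ u ∈ e.erase v, aa k s F l u := Finset.prod_congr rfl fun u _ => hmix u
      have h3 : ∏ u ∈ e, aa k s F l u = aa k s F l v * ∏ u ∈ e.erase v, aa k s F l u :=
        (Finset.mul_prod_erase e _ he.2).symm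
      have h4 : 0 < ∏ u ∈ e.erase v, aa k s F l u := Finset.prod_pos fun u _ => haa u
      have h5 := haa v
      rw [h2]
      unfold cc
      rw [if_pos he.1, h3]
      field_simp
    rw [Finset.sum_congr rfl h1, Finset.sum_const, nsmul_eq_mul, card_at hLD hy v]
    have h6 : (1 + l) * aa k s F l v = max (ld k s F v) l := by
      unfold aa; field_simp
    have h7 : ld k s F v * qq k s * (1 / (qq k s * (1 + l) * aa k s F l v)) =
        ld k s F v / max (ld k s F v) l := by
      rw [← h6]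
      have h5 := haa v
      field_simp
    rw [h7]
    exact (div_le_one (lt_of_lt_of_le hl (le_max_right _ _))).2 (le_max_left _ _)
  have key := hTL V (tt k s F l) (fun _ => 1) (fun _ => κ) (Finset V) A (fun e => e.erase v)
    (cc k s F l) 1 η htt (fun _ => ⟨zero_le_one, le_rfl⟩) (fun _ => ⟨hκ0, hκ1⟩)
    (fun e _ => hc0 e) hη hmean
  have hcard : ∀ e ∈ A, ((A.filter (fun e' => ¬ Disjoint (e.erase v) (e'.erase v))).card : ℝ) ≤
      qq k s / s := by
    intro e he
    rw [hA, Finset.mem_filter] at he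
    have h1 : A.filter (fun e' => ¬ Disjoint (e.erase v) (e'.erase v)) ⊆
        F.filter (fun e' => v ∈ e' ∧ ∃ u ∈ e.erase v, u ∈ e') := by
      intro e' he'
      rw [Finset.mem_filter, hA, Finset.mem_filter] at he'
      rw [Finset.mem_filter]
      refine ⟨he'.1.1, he'.1.2, ?_⟩
      obtain ⟨u, hu1, hu2⟩ := Finset.not_disjoint_iff.1 he'.2
      exact ⟨u, hu1, Finset.mem_of_mem_erase hu2⟩
    have h2 := cnt_meet hLD hy v (e.erase v) (Finset.notMem_erase v e)
    have h3 : ((e.erase v).card : ℝ) ≤ k := by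
      have := Finset.card_erase_le (s := e) (a := v)
      rw [hy.uf e he.1] at this
      exact_mod_cast this
    have h4 : ((A.filter (fun e' => ¬ Disjoint (e.erase v) (e'.erase v))).card : ℝ) ≤
        ((F.filter (fun e' => v ∈ e' ∧ ∃ u ∈ e.erase v, u ∈ e')).card : ℝ) := by
      exact_mod_cast Finset.card_le_card h1
    refine h4.trans ?_
    rw [le_div_iff₀ hs0]
    have h5 : ((F.filter (fun e' => v ∈ e' ∧ ∃ u ∈ e.erase v, u ∈ e')).card : ℝ) * (k * s) ≤
        k * qq k s := h2.trans (mul_le_mul_of_nonneg_right h3 hq.le)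
    have h6 : k * (((F.filter (fun e' => v ∈ e' ∧ ∃ u ∈ e.erase v, u ∈ e')).card : ℝ) * s) ≤
        k * qq k s := by
      calc k * (((F.filter (fun e' => v ∈ e' ∧ ∃ u ∈ e.erase v, u ∈ e')).card : ℝ) * s)
          = ((F.filter (fun e' => v ∈ e' ∧ ∃ u ∈ e.erase v, u ∈ e')).card : ℝ) * (k * s) := by ring
        _ ≤ _ := h5
    exact le_of_mul_le_mul_left h6 hk0
  have hds := dsum A (fun e e' => ¬ Disjoint (e.erase v) (e'.erase v)) (cc k s F l)
    (C / qq k s) (qq k s / s) (fun e _ => hc0 e) (fun e _ => hD e)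
    (div_nonneg (le_trans zero_le_one hC1) hq.le) hcard
  rw [card_at hLD hy v] at hds
  have h8 : ld k s F v * qq k s * (C / qq k s * (C / qq k s) * (qq k s / s)) =
      C ^ 2 * ld k s F v / s := by
    field_simp
  rw [h8] at hds
  refine le_trans (le_of_eq ?_) (key.trans (le_trans (le_of_eq ?_) hds))
  · rfl
  · refine Finset.sum_congr rfl fun e _ => ?_
    refine Finset.sum_congr ?_ fun _ _ => rfl
    ext e'
    simp only [Finset.mem_filter]

end Pool.Agent.Q275.TK
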